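import Pool.Agent.K6.H92.GL.Gen

set_option autoImplicit false

/-!
# MP_5d828d_al: the type of a Cohen-Macaulay Golod ring is not bounded below by the height

For every field `k` of characteristic zero and all `h, t ≥ 2` there is a homogeneous ideal `I` of
`k[x₁, …, x_h]`, contained in any prescribed power of the maximal ideal, such that `S / I` is
Cohen-Macaulay (artinian), Golod, of type `t`, while `I` has height `h`.
-/

open MvPolynomial
open Pool.Agent.R688.GU

open Pool.Agent.K6.H92.GL

namespace Pool.Agent.Results.MP_5d828d_al.TypeHeightIndependent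

/-- For every field `k` of characteristic zero, all `h, t ≥ 2` and every `s` the polynomial ring
`S` in `h` variables over `k` has a homogeneous ideal `I ⊆ 𝔪 ^ s` of height `h` such that `S / I` is
Cohen-Macaulay and Golod and has type `t`. -/
theorem result (k : Type) [Field k] [CharZero k] (h t s : ℕ) (hh : 2 ≤ h) (ht : 2 ≤ t) :
    ∃ I : Ideal (MvPolynomial (Fin h) k), IsHomog I ∧ I ≤ maxS k h ^ s ∧ IsCMR I ∧
      IsGolod (xbar I) ∧ typeR I = t ∧ I.height = h := by
  obtain ⟨d, hd⟩ : ∃ d, d = h + t + s := ⟨_, rfl⟩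
  obtain ⟨W, ⟨N, P, Q, hPQ, hle⟩, u, hu, hsp, hi⟩ :=
    exists_W (k := k) (n := h) (d := d) (t := t) (by omega) hh (by omega) ht (by omega)
  have h1 : ∀ f ∈ Wid (2 * d - 1) W, ∀ e ≤ d, homogeneousComponent e f = 0 := fun f hf e he =>
    hc_eq_zero hPQ (by omega) (by omega) he (hle hf)
  have h2 : ∀ f : MvPolynomial (Fin h) k, (∀ e < 2 * d, homogeneousComponent e f = 0) →
      f ∈ Wid (2 * d - 1) W := fun f hf => Wid_of_hc fun e he => hf e (by omega)
  have h3 : ∀ i : Fin h, (X i : MvPolynomial (Fin h) k) ^ (2 * d) ∈ Wid (2 * d - 1) W := by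
    intro i
    refine h2 _ fun e he => ?_
    rw [homogeneousComponent_of_mem (isHomogeneous_X_pow i (2 * d)), if_neg (by omega)]
  obtain ⟨htype, hdepth, hnt⟩ := Wid_type (by omega) u hu hsp hi
  have h4 : ∀ m ≤ d, Wid (2 * d - 1) W ≤ maxS k h ^ m := by
    intro m hm f hf
    change f ∈ idealOfVars (Fin h) k ^ m
    rw [mem_pow_idealOfVars_iff']
    intro c hc
    have h5 := h1 f hf c.degree (by omega)
    have h6 : coeff c (homogeneousComponent c.degree f) = coeff c f := by
      rw [coeff_homogeneousComponent, if_pos rfl]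
    rw [← h6, h5, coeff_zero]
  refine ⟨Wid (2 * d - 1) W, Wid_homog _ _, h4 s (by omega), ?_, golod_of _ d h1 h2, htype, ?_⟩
  · unfold IsCMR
    rw [hdepth, dim_zero _ _ h3 hnt]
    rfl
  · refine le_antisymm (height_le _ ?_) (le_height_of _ _ h3)
    have h5 := h4 1 (by omega)
    rwa [pow_one] at h5

end Pool.Agent.Results.MP_5d828d_al.TypeHeightIndependent
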